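import Pool.Agent.LKT.Stmts
import Pool.Agent.Helper15_LCK.UPS
import Pool.Agent.Helper32_LCK.SNC
import Pool.Agent.Helper83_LCK.DEN
import Pool.Agent.Helper92_LCK.REV

set_option autoImplicit false

namespace Pool.Agent.LKT.H46

open Pool.Agent.LCK

/-- a locked chain stays locked when a link is appended at the end -/
theorem lock_ap {n : ℕ} (l : Fin n → ℝ) (hl : ∀ k, 0 < l k) (L : ℝ) (hL : 0 < L)
    (h : Locked l) : Locked (ap l L) := fun h1 =>
  h ((Pool.Agent.LCK.H15.ups Pool.Agent.LCK.H32.snc Pool.Agent.LCK.H83.den n l hl).2 L hL h1)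

/-- a locked chain stays locked when a link is put at the beginning -/
theorem lock_pr {n : ℕ} (l : Fin n → ℝ) (hl : ∀ k, 0 < l k) (L : ℝ) (hL : 0 < L)
    (h : Locked l) : Locked (pr L l) := by
  obtain ⟨r1, r2⟩ := Pool.Agent.LCK.H92.rev n
  intro h1
  apply h
  rw [← r1 l]
  exact (Pool.Agent.LCK.H15.ups Pool.Agent.LCK.H32.snc Pool.Agent.LCK.H83.den n
    (fun k => l k.rev) (fun k => hl k.rev)).2 L hL ((r2 l L).1 h1)

/-- EXT: longer chains -/
theorem ext (hF : FinStmt) : ExtStmt := by
  intro n
  induction n with
  | zero =>
    intro l s hs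
    omega
  | succ n ih =>
    intro l s hs hl h0 h1 h2 h3 h4 h5 h6
    rcases s with _ | s
    · by_cases hn : 7 ≤ n
      · have e : l = ap (fun k : Fin n => l k.castSucc) (l (Fin.last n)) := by
          funext k
          refine Fin.lastCases ?_ (fun i => ?_) k
          · unfold ap
            rw [Fin.snoc_last]
          · unfold ap
            rw [Fin.snoc_castSucc]
        rw [e]
        exact lock_ap _ (fun k => hl k.castSucc) _ (hl _)
          (ih (fun k : Fin n => l k.castSucc) 0 (by omega) (fun k => hl k.castSucc)
            h0 h1 h2 h3 h4 h5 h6)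
      · have hn6 : n = 6 := by omega
        subst hn6
        have e : l = ![l 0, 1, 1, 1, 1, 1, l 6] := by
          funext k
          fin_cases k
          · rfl
          · exact h1
          · exact h2
          · exact h3
          · exact h4
          · exact h5
          · rfl
        rw [e]
        exact hF (l 0) (l 6) h0 h6
    · have e : l = pr (l 0) (fun k : Fin n => l k.succ) := by
        funext k
        refine Fin.cases ?_ (fun i => ?_) k
        · rfl
        · rfl
      have c : ∀ (i : ℕ) (hi : s + 1 + i < n + 1) (hi' : s + i < n),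
          (fun k : Fin n => l k.succ) ⟨s + i, hi'⟩ = l ⟨s + 1 + i, hi⟩ := by
        intro i hi hi'
        exact congrArg l (Fin.ext (by simp only [Fin.val_succ]; omega))
      rw [e]
      refine lock_pr _ (fun k => hl k.succ) _ (hl _)
        (ih (fun k : Fin n => l k.succ) s (by omega) (fun k => hl k.succ) ?_ ?_ ?_ ?_ ?_ ?_ ?_)
      · exact (c 0 (by omega) (by omega)).symm ▸ h0
      · exact (c 1 (by omega) (by omega)).trans h1
      · exact (c 2 (by omega) (by omega)).trans h2
      · exact (c 3 (by omega) (by omega)).trans h3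
      · exact (c 4 (by omega) (by omega)).trans h4
      · exact (c 5 (by omega) (by omega)).trans h5
      · exact (c 6 (by omega) (by omega)).symm ▸ h6

end Pool.Agent.LKT.H46
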